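import Pool.Agent.helper5.SYM.SpecB

set_option autoImplicit false

namespace Pool.Agent.SYM

open Finset CT Polynomial

theorem EQP_one {V : Type} {G : SimpleGraph V} (τ : G.Dart → G.Dart) :
    cj (1 : G ≃g G) τ = τ := rfl

theorem EQP_mul {V : Type} {G : SimpleGraph V} (σ ρ : G ≃g G) (τ : G.Dart → G.Dart) :
    cj (σ * ρ) τ = cj σ (cj ρ τ) := rfl

theorem EQP (hCJI : CJI_stmt) : EQP_stmt := by
  intro V P _ _ _ G θ B hP hB
  have hfin : Finite G.Dart :=
    Finite.of_injective (fun d : G.Dart => d.toProd) (SimpleGraph.Dart.toProd_injective)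
  let α : Type := {τ : G.Dart → G.Dart // IsTS τ ∧ B τ}
  have hα : Finite α := Subtype.finite
  let act : MulAction P α :=
    { smul := fun p τ => ⟨cj (θ p) τ.1, (hCJI V G (θ p) τ.1).2.1 τ.2.1, hB p τ.1 τ.2.2⟩
      one_smul := by
        intro τ
        apply Subtype.ext
        show cj (θ 1) τ.1 = τ.1
        rw [map_one]
        exact EQP_one τ.1
      mul_smul := by
        intro p q τ
        apply Subtype.ext
        show cj (θ (p * q)) τ.1 = cj (θ p) (cj (θ q) τ.1)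
        rw [map_mul]
        exact EQP_mul _ _ τ.1 }
  have h1 := hP.card_modEq_card_fixedPoints α
  have h2 : Nat.card (MulAction.fixedPoints P α) =
      Nat.card {τ : G.Dart → G.Dart // IsTS τ ∧ B τ ∧ ∀ p, Inv (θ p) τ} := by
    apply Nat.card_congr
    refine ⟨fun τ => ⟨τ.1.1, τ.1.2.1, τ.1.2.2, fun p => ?_⟩,
      fun τ => ⟨⟨τ.1, τ.2.1, τ.2.2.1⟩, fun p => ?_⟩, fun τ => rfl, fun τ => rfl⟩
    · have h3 := τ.2 p
      have h4 : cj (θ p) τ.1.1 = τ.1.1 := congrArg Subtype.val h3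
      exact (hCJI V G (θ p) τ.1.1).2.2.1 h4
    · apply Subtype.ext
      exact (hCJI V G (θ p) τ.1).2.2.2 (τ.2.2.2 p)
  rw [h2] at h1
  exact (ZMod.natCast_eq_natCast_iff _ _ 2).2 h1

end Pool.Agent.SYM
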